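import Mathlib

/-!
Interfaces for the one-sixth theorem for omitted half-lines (Paper.md in this folder).
-/

set_option autoImplicit false

open Metric MeasureTheory Set

namespace Pool.Agent.Lib.MP_7682a8_an.OM

noncomputable section

/-- x cot x, with value 1 at 0. -/
def Jf (x : ℝ) : ℝ := Real.cos x / Real.sinc x

/-- (x - sin x cos x) / (2 sin^2 x), with value 0 at 0. -/
def Nf (x : ℝ) : ℝ := (x - Real.sin x * Real.cos x) / (2 * Real.sin x ^ 2)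

/-- (sin x - x cos x) / sin^3 x (junk value 0 at 0). -/
def Xf (x : ℝ) : ℝ := (Real.sin x - x * Real.cos x) / Real.sin x ^ 3

/-- Paper, section 2. -/
def KERNStatement : Prop :=
  ContinuousOn Nf (Ioo (-Real.pi) Real.pi) ∧
  ContinuousOn Jf (Ioo (-Real.pi) Real.pi) ∧
  (∀ x ∈ Ioo (-Real.pi) Real.pi, x ≠ 0 →
    HasDerivAt Nf (Xf x) x ∧ HasDerivAt Jf (-(2 * Nf x)) x ∧ 1 / 3 ≤ Xf x) ∧
  (∀ a ∈ Ioo (-Real.pi) Real.pi, ∀ b ∈ Ioo (-Real.pi) Real.pi, IntervalIntegrable Xf volume a b) ∧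
  (∀ x ∈ Ioo (-Real.pi) Real.pi, x ≠ 0 → ∀ l : ℝ, 0 ≤ l → l ≤ 1 / 2 →
    1 / 3 - l ^ 2 ≤ Xf x + 2 * l * Nf x)

/-- Paper, sections 5 and 6 (a real variable theorem). -/
def RUNStatement : Prop :=
  ∀ U V : ℝ → ℝ, (∀ t, HasDerivAt U (V t) t) → Continuous V → (∀ t, U (t + 2 * Real.pi) = U t) →
    (∫ t in (0:ℝ)..(2 * Real.pi), V t * Real.sin t) = -Real.pi →
    ∀ κ : ℝ, 0 < κ → κ ≤ 1 / 6 →
    ∃ t0 : ℝ, V t0 = κ ∧ ∀ τ ∈ Ioo t0 (t0 + 2 * Real.pi),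
      (∫ t in t0..(t0 + 2 * Real.pi), Nf ((t - τ) / 2) * (V t - κ)) ≤
        -Real.pi * (1 / 6 - 7 / 3 * κ ^ 2 / (1 - 2 * κ))

/-- Paper, section 3, after rotation: base point 1. -/
def REPStatement : Prop :=
  ∀ (R : ℝ) (F : ℂ → ℂ), 1 < R → DifferentiableOn ℂ F (ball 0 R) →
    ∀ κ : ℝ, (F 1).im = -κ → ∀ σ ∈ Ioo (0:ℝ) (2 * Real.pi),
    (∫ s in (0:ℝ)..1, (Complex.exp (σ * Complex.I) + s) / (Complex.exp (σ * Complex.I) - s) *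
      deriv F s).re =
    Real.pi⁻¹ * ∫ t in (0:ℝ)..(2 * Real.pi),
      Nf ((t - σ) / 2) * (-(F (Complex.exp (t * Complex.I))).im - κ)

/-- Paper, section 4. -/
def MIXStatement : Prop :=
  ∀ (R : ℝ) (F q : ℂ → ℂ), 1 < R → DifferentiableOn ℂ F (ball 0 R) →
    DifferentiableOn ℂ q (ball 0 R) → (∀ z ∈ sphere (0:ℂ) 1, 0 ≤ (q z).re) → (q 0).im = 0 →
    ∀ B : ℝ, (∀ σ ∈ Ioo (0:ℝ) (2 * Real.pi),
      (∫ s in (0:ℝ)..1, (Complex.exp (σ * Complex.I) + s) / (Complex.exp (σ * Complex.I) - s) *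
        deriv F s).re ≤ B) →
    (∫ s in (0:ℝ)..1, q s * deriv F s).re ≤ B * (q 0).re

/-- Paper, sections 1-6. -/
def COREStatement : Prop :=
  ∀ (R : ℝ) (h g : ℂ → ℂ), 1 < R → DifferentiableOn ℂ h (ball 0 R) →
    DifferentiableOn ℂ g (ball 0 R) → h 0 = 0 → g 0 = 0 → deriv h 0 = 1 → deriv g 0 = 0 →
    (∀ z ∈ ball (0:ℂ) R, ‖deriv g z‖ < ‖deriv h z‖) → ∀ κ : ℝ, 0 < κ → κ ≤ 1 / 6 →
    ∃ z : ℂ, ‖z‖ = 1 ∧ (h z + starRingEnd ℂ (g z)).im = -κ ∧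
      (h z + starRingEnd ℂ (g z)).re ≤ -(1 / 6 - 7 / 3 * κ ^ 2 / (1 - 2 * κ))

/-- The half-line theorem at the origin for one side (Paper, theorem (B), refined form). -/
def RAYStatement : Prop :=
  ∀ h g : ℂ → ℂ, DifferentiableOn ℂ h (ball 0 1) → DifferentiableOn ℂ g (ball 0 1) →
    h 0 = 0 → g 0 = 0 → deriv h 0 = 1 → deriv g 0 = 0 →
    (∀ z ∈ ball (0:ℂ) 1, ‖deriv g z‖ < ‖deriv h z‖) →
    ∀ r : ℝ, 0 < r → r < 1 → ∀ u : ℂ, ‖u‖ = 1 → ∀ κ : ℝ, κ ≠ 0 → |κ| ≤ r / 6 →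
    ∃ z : ℂ, ‖z‖ = r ∧ (starRingEnd ℂ u * (h z + starRingEnd ℂ (g z))).im = κ ∧
      r / 6 - 7 / 3 * κ ^ 2 / (r - 2 * |κ|) ≤ (starRingEnd ℂ u * (h z + starRingEnd ℂ (g z))).re

end

end Pool.Agent.Lib.MP_7682a8_an.OM
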